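import Pool.Agent.Zk2.FP.Rea
import Pool.Agent.Zk2.XP.Rolle

set_option autoImplicit false

/-!
# Rolle's theorem with multiplicities in an interval: the exact form

`g : ℕ → ℝ → ℝ` is the sequence of the derivatives of a real function, `mu n u` the multiplicity of `g n` at `u`.
-/

namespace Pool.Agent.Zk3.G

open Filter Topology Set
open Pool.Agent.Zk2.FP (cls max_between min_between')

noncomputable section

lemma max_between1 {F : ℝ → ℝ} (hF : Continuous F) {a b : ℝ} (hab : a < b) (ha : ∀ᶠ z in 𝓝[>] a, F a ≤ F z)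
    (hb : ∀ᶠ z in 𝓝[<] b, F b ≤ F z) : ∃ c, a < c ∧ c < b ∧ IsLocalMax F c := by
  obtain ⟨c, hc, hmax⟩ := isCompact_Icc.exists_isMaxOn (nonempty_Icc.2 hab.le) (hF.continuousOn (s := Icc a b))
  have inner : ∀ z, a < z → z < b → (∀ y ∈ Icc a b, F y ≤ F z) → IsLocalMax F z := by
    intro z h1 h2 h3
    filter_upwards [Icc_mem_nhds h1 h2] with y hy
    exact h3 y hy
  have hm : ∀ y ∈ Icc a b, F y ≤ F c := fun y hy => hmax hy
  rcases eq_or_lt_of_le hc.1 with h | h
  · subst h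
    have h2 : ∀ᶠ z in 𝓝[>] a, a < z ∧ z < b := by
      filter_upwards [self_mem_nhdsWithin, (eventually_lt_nhds hab).filter_mono nhdsWithin_le_nhds] with z h3 h4
      exact ⟨h3, h4⟩
    obtain ⟨z, h3, h4, h5⟩ := (ha.and h2).exists
    exact ⟨z, h4, h5, inner z h4 h5 fun y hy => (hm y hy).trans h3⟩
  · rcases eq_or_lt_of_le hc.2 with h' | h'
    · subst h'
      have h2 : ∀ᶠ z in 𝓝[<] c, z < c ∧ a < z := by
        filter_upwards [self_mem_nhdsWithin, (eventually_gt_nhds hab).filter_mono nhdsWithin_le_nhds] with z h3 h4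
        exact ⟨h3, h4⟩
      obtain ⟨z, h3, h4, h5⟩ := (hb.and h2).exists
      exact ⟨z, h5, h4, inner z h5 h4 fun y hy => (hm y hy).trans h3⟩
    · exact ⟨c, h, h', inner c h h' hm⟩

lemma min_between1 {F : ℝ → ℝ} (hF : Continuous F) {a b : ℝ} (hab : a < b) (ha : ∀ᶠ z in 𝓝[>] a, F z ≤ F a)
    (hb : ∀ᶠ z in 𝓝[<] b, F z ≤ F b) : ∃ c, a < c ∧ c < b ∧ IsLocalMin F c := by
  obtain ⟨c, h1, h2, h3⟩ := max_between1 hF.neg hab (ha.mono fun z hz => neg_le_neg hz)
    (hb.mono fun z hz => neg_le_neg hz)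
  refine ⟨c, h1, h2, ?_⟩
  have := h3.neg
  simpa using this

variable (g : ℕ → ℝ → ℝ) (mu : ℕ → ℝ → ℕ)

/-- the number of zeros of `g n` in `(a, b]`, with multiplicity -/
def Zc (n : ℕ) (a b : ℝ) : ℕ := ∑ᶠ u ∈ {u : ℝ | a < u ∧ u ≤ b ∧ g n u = 0}, mu n u

open Classical in
/-- the weight of Fourier -/
def wt (n : ℕ) (u : ℝ) : ℕ := mu (n + 1) u / 2 + if IsLocalMin (fun x : ℝ => |g n x|) u then 1 else 0

/-- the number of critical points of `g n` in `(a, b]` in the sense of Fourier -/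
def Vc (n : ℕ) (a b : ℝ) : ℕ := ∑ᶠ u ∈ {u : ℝ | a < u ∧ u ≤ b ∧ g n u ≠ 0 ∧ g (n + 1) u = 0}, wt g mu n u

variable {g mu}

/-- the derivative vanishes at the nonzero local extrema -/
lemma ext_deriv (hd : ∀ i x, HasDerivAt (g i) (g (i + 1) x) x) {n : ℕ} {c : ℝ} (h : g n c ≠ 0)
    (he : IsLocalMin (fun x : ℝ => |g n x|) c ∨ IsLocalMax (fun x : ℝ => |g n x|) c) : g (n + 1) c = 0 := by
  have hc : ContinuousAt (g n) c := (hd n c).continuousAt
  rcases lt_or_gt_of_ne h with hn | hp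
  · have hev : (fun x : ℝ => |g n x|) =ᶠ[𝓝 c] fun x => -g n x := by
      filter_upwards [hc.eventually (gt_mem_nhds hn)] with x hx
      exact abs_of_neg hx
    have h1 : IsLocalExtr (fun x => -g n x) c := by
      rcases he with he | he
      · exact Or.inl (he.congr hev)
      · exact Or.inr (he.congr hev)
    have := h1.hasDerivAt_eq_zero (hd n c).neg
    linarith
  · have hev : (fun x : ℝ => |g n x|) =ᶠ[𝓝 c] fun x => g n x := by
      filter_upwards [hc.eventually (lt_mem_nhds hp)] with x hx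
      exact abs_of_pos hx
    have h1 : IsLocalExtr (fun x => g n x) c := by
      rcases he with he | he
      · exact Or.inl (he.congr hev)
      · exact Or.inr (he.congr hev)
    exact h1.hasDerivAt_eq_zero (hd n c)

lemma zero_min {n : ℕ} {c : ℝ} (h : g n c = 0) : IsLocalMin (fun x : ℝ => |g n x|) c := by
  have : ∀ᶠ x in 𝓝 c, |g n c| ≤ |g n x| := by
    filter_upwards with x
    rw [h, abs_zero]
    exact abs_nonneg _
  exact this

lemma no_max (hfin : ∀ n a b, {u : ℝ | a < u ∧ u ≤ b ∧ g n u = 0}.Finite) {n : ℕ} {c : ℝ} (h : g n c = 0) :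
    ¬ IsLocalMax (fun x : ℝ => |g n x|) c := by
  intro hm
  have h1 : ∀ᶠ x in 𝓝 c, |g n x| ≤ |g n c| := hm
  rw [Metric.eventually_nhds_iff] at h1
  obtain ⟨ε, hε, h2⟩ := h1
  have hinf : (Ioo c (c + ε)).Infinite := Ioo_infinite (by linarith)
  refine hinf ((hfin n c (c + ε)).subset fun x hx => ⟨hx.1, hx.2.le, ?_⟩)
  have h3 := h2 (y := x) (by rw [Real.dist_eq, abs_lt]; constructor <;> linarith [hx.1, hx.2])
  rw [h, abs_zero] at h3
  exact abs_nonpos_iff.1 h3

lemma abs_cont (hd : ∀ i x, HasDerivAt (g i) (g (i + 1) x) x) (n : ℕ) : Continuous (fun x : ℝ => |g n x|) :=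
  (continuous_iff_continuousAt.2 fun x => (hd n x).continuousAt).abs

/-- the defect in Rolle's theorem is the number of local maxima minus the number of local minima of `|g n|` in `(a, b]` -/
theorem defect (hd : ∀ i x, HasDerivAt (g i) (g (i + 1) x) x)
    (hmu : ∀ n u, (∀ i < mu n u, g (n + i) u = 0) ∧ g (n + mu n u) u ≠ 0)
    (hfin : ∀ n a b, {u : ℝ | a < u ∧ u ≤ b ∧ g n u = 0}.Finite) (n : ℕ) (a b : ℝ) : ∃ A B : Finset ℝ,
    (∀ u, u ∈ A ↔ (a < u ∧ u ≤ b ∧ IsLocalMin (fun x : ℝ => |g n x|) u)) ∧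
    (∀ u, u ∈ B ↔ (a < u ∧ u ≤ b ∧ IsLocalMax (fun x : ℝ => |g n x|) u)) ∧
    (Zc g mu (n + 1) a b : ℤ) - Zc g mu n a b - 2 * Vc g mu n a b = B.card - A.card := by
  classical
  have hCf : {u : ℝ | a < u ∧ u ≤ b ∧ g n u ≠ 0 ∧ g (n + 1) u = 0}.Finite :=
    (hfin (n + 1) a b).subset fun _ h => ⟨h.1, h.2.1, h.2.2.2⟩
  have mu_zero : ∀ (m : ℕ) (u : ℝ), g m u ≠ 0 → mu m u = 0 := by
    intro m u hu
    by_contra hcon
    exact hu ((hmu m u).1 0 (Nat.pos_of_ne_zero hcon))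
  have mu_deriv : ∀ u : ℝ, g n u = 0 → mu n u = mu (n + 1) u + 1 := by
    intro u hu
    obtain ⟨a1, a2⟩ := hmu n u
    obtain ⟨b1, b2⟩ := hmu (n + 1) u
    have hpos : 0 < mu n u := by
      by_contra hcon
      have : mu n u = 0 := by omega
      rw [this, add_zero] at a2
      exact a2 hu
    rcases lt_trichotomy (mu n u) (mu (n + 1) u + 1) with h | h | h
    · exfalso
      have h2 := b1 (mu n u - 1) (by omega)
      rw [show n + 1 + (mu n u - 1) = n + mu n u by omega] at h2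
      exact a2 h2
    · exact h
    · exfalso
      have h2 := a1 (mu (n + 1) u + 1) h
      rw [show n + (mu (n + 1) u + 1) = n + 1 + mu (n + 1) u by omega] at h2
      exact b2 h2
  set S1 := (hfin (n + 1) a b).toFinset with hS1
  set S0 := (hfin n a b).toFinset with hS0
  set C := hCf.toFinset with hC
  have m1 : ∀ u, u ∈ S1 ↔ (a < u ∧ u ≤ b ∧ g (n + 1) u = 0) := fun u => by
    rw [hS1, Set.Finite.mem_toFinset]; rfl
  have m0 : ∀ u, u ∈ S0 ↔ (a < u ∧ u ≤ b ∧ g n u = 0) := fun u => by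
    rw [hS0, Set.Finite.mem_toFinset]; rfl
  have mC : ∀ u, u ∈ C ↔ (a < u ∧ u ≤ b ∧ g n u ≠ 0 ∧ g (n + 1) u = 0) := fun u => by
    rw [hC, Set.Finite.mem_toFinset]; rfl
  have hdis : Disjoint S0 C := by
    rw [Finset.disjoint_left]
    intro u h1 h2
    exact ((mC u).1 h2).2.2.1 ((m0 u).1 h1).2.2
  have e1 : ∑ u ∈ S1, mu (n + 1) u = ∑ u ∈ S0, mu (n + 1) u + ∑ u ∈ C, mu (n + 1) u := by
    rw [← Finset.sum_union hdis]
    refine Finset.sum_subset ?_ ?_
    · intro u hu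
      have h := (m1 u).1 hu
      rw [Finset.mem_union]
      by_cases h0 : g n u = 0
      · exact Or.inl ((m0 u).2 ⟨h.1, h.2.1, h0⟩)
      · exact Or.inr ((mC u).2 ⟨h.1, h.2.1, h0, h.2.2⟩)
    · intro u hu hu1
      apply mu_zero
      intro h0
      apply hu1
      rw [m1]
      rw [Finset.mem_union] at hu
      rcases hu with hu | hu
      · exact ⟨((m0 u).1 hu).1, ((m0 u).1 hu).2.1, h0⟩
      · exact ⟨((mC u).1 hu).1, ((mC u).1 hu).2.1, h0⟩
  have e2 : ∑ u ∈ S0, mu n u = ∑ u ∈ S0, mu (n + 1) u + S0.card := by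
    rw [Finset.card_eq_sum_ones, ← Finset.sum_add_distrib]
    exact Finset.sum_congr rfl fun u hu => mu_deriv u ((m0 u).1 hu).2.2
  set Mn := C.filter (fun u => IsLocalMin (fun x : ℝ => |g n x|) u) with hMn
  set Mx := C.filter (fun u => IsLocalMax (fun x : ℝ => |g n x|) u) with hMx
  have e3 : ∀ u ∈ C, (mu (n + 1) u : ℤ) = 2 * (wt g mu n u : ℤ) -
      (if IsLocalMin (fun x : ℝ => |g n x|) u then 1 else 0) +
      (if IsLocalMax (fun x : ℝ => |g n x|) u then 1 else 0) := by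
    intro u hu
    have hu' := (mC u).1 hu
    have h2 := hmu (n + 1) u
    have h3 := cls (mu (n + 1) u) (fun i => g (n + i)) u (fun i x => hd (n + i) x) hu'.2.2.1
      (fun i hi => by
        have := h2.1 i hi
        rwa [show n + 1 + i = n + (1 + i) by omega] at this)
      (by
        have := h2.2
        rwa [show n + 1 + mu (n + 1) u = n + (1 + mu (n + 1) u) by omega] at this)
    simp only [add_zero] at h3
    unfold wt
    generalize mu (n + 1) u = k at h3
    rcases h3 with ⟨ho, h4, h5⟩ | ⟨ho, h4, h5⟩ | ⟨ho, h4, h5⟩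
    · simp only [if_pos h4, if_neg h5]
      obtain ⟨m, hm⟩ := ho
      have : k / 2 = m := by omega
      rw [this, hm]
      push_cast
      ring
    · simp only [if_neg h5, if_pos h4]
      obtain ⟨m, hm⟩ := ho
      have : k / 2 = m := by omega
      rw [this, hm]
      push_cast
      ring
    · simp only [if_neg h4, if_neg h5]
      obtain ⟨m, hm⟩ := ho
      have : k / 2 = m := by omega
      rw [this, hm]
      push_cast
      ring
  have eV : Vc g mu n a b = ∑ u ∈ C, wt g mu n u := finsum_mem_eq_finite_toFinset_sum _ hCf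
  have e4 : ((∑ u ∈ C, mu (n + 1) u : ℕ) : ℤ) = 2 * (Vc g mu n a b : ℤ) - Mn.card + Mx.card := by
    rw [eV]
    push_cast
    rw [Finset.sum_congr rfl e3, Finset.sum_add_distrib, Finset.sum_sub_distrib, ← Finset.mul_sum,
      Finset.sum_boole, Finset.sum_boole]
  have hdA : Disjoint S0 Mn := Finset.disjoint_of_subset_right (Finset.filter_subset _ _) hdis
  have cA : (S0 ∪ Mn).card = S0.card + Mn.card := Finset.card_union_of_disjoint hdA
  refine ⟨S0 ∪ Mn, Mx, fun u => ?_, fun u => ?_, ?_⟩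
  · rw [Finset.mem_union, m0, hMn, Finset.mem_filter, mC]
    constructor
    · rintro (h | h)
      · exact ⟨h.1, h.2.1, zero_min h.2.2⟩
      · exact ⟨h.1.1, h.1.2.1, h.2⟩
    · rintro ⟨h1, h2, h3⟩
      by_cases h0 : g n u = 0
      · exact Or.inl ⟨h1, h2, h0⟩
      · exact Or.inr ⟨⟨h1, h2, h0, ext_deriv hd h0 (Or.inl h3)⟩, h3⟩
  · rw [hMx, Finset.mem_filter, mC]
    constructor
    · rintro h
      exact ⟨h.1.1, h.1.2.1, h.2⟩
    · rintro ⟨h1, h2, h3⟩
      have h0 : g n u ≠ 0 := fun h => no_max hfin h h3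
      exact ⟨⟨h1, h2, h0, ext_deriv hd h0 (Or.inr h3)⟩, h3⟩
  · have z1 : (Zc g mu (n + 1) a b : ℤ) = ((∑ u ∈ S1, mu (n + 1) u : ℕ) : ℤ) := by
      rw [hS1, ← finsum_mem_eq_finite_toFinset_sum _ (hfin (n + 1) a b)]; rfl
    have z0 : (Zc g mu n a b : ℤ) = ((∑ u ∈ S0, mu n u : ℕ) : ℤ) := by
      rw [hS0, ← finsum_mem_eq_finite_toFinset_sum _ (hfin n a b)]; rfl
    rw [z1, z0, e1, e2, cA]
    push_cast at e4 ⊢
    rw [e4]
    ring

/-- one-sided monotonicity of `|g n|` at a point with `g n ≠ 0`, `g (n+1) ≠ 0` -/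
lemma mono_pos (hd : ∀ i x, HasDerivAt (g i) (g (i + 1) x) x) {n : ℕ} {u : ℝ} (h : 0 < g n u * g (n + 1) u) :
    (∀ᶠ z in 𝓝[>] u, |g n u| ≤ |g n z|) ∧ (∀ᶠ z in 𝓝[<] u, |g n z| ≤ |g n u|) := by
  -- the function `s * g n` with `s = g n u` is positive and increasing near `u`
  have hne : g n u ≠ 0 := fun h0 => by rw [h0, zero_mul] at h; exact lt_irrefl _ h
  have hφ : HasDerivAt (fun x => g n u * g n x) (g n u * g (n + 1) u) u := (hd n u).const_mul _
  have hsl := hasDerivAt_iff_tendsto_slope.1 hφ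
  have hev : ∀ᶠ z in 𝓝[≠] u, 0 < slope (fun x => g n u * g n x) u z := hsl.eventually (lt_mem_nhds h)
  have hc : ContinuousAt (fun x => g n u * g n x) u := hφ.continuousAt
  have hpp : 0 < g n u * g n u := mul_self_pos.2 hne
  have hpos : ∀ᶠ z in 𝓝 u, 0 < g n u * g n z := hc.eventually (lt_mem_nhds hpp)
  have habs : 0 < |g n u| := abs_pos.2 hne
  have e : ∀ z, 0 < g n u * g n z → g n u * g n z = |g n u| * |g n z| := fun z hz => by
    rw [← abs_mul, abs_of_pos hz]
  constructor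
  · have h1 : ∀ᶠ z in 𝓝[>] u, 0 < slope (fun x => g n u * g n x) u z :=
      hev.filter_mono (nhdsWithin_mono u fun x (hx : u < x) => ne_of_gt hx)
    filter_upwards [h1, hpos.filter_mono nhdsWithin_le_nhds, self_mem_nhdsWithin] with z h2 h3 h4
    have h4' : (0 : ℝ) < z - u := sub_pos.2 h4
    rw [slope_def_field, lt_div_iff₀ h4', zero_mul, sub_pos, e z h3, e u hpp] at h2
    exact (lt_of_mul_lt_mul_left h2 habs.le).le
  · have h1 : ∀ᶠ z in 𝓝[<] u, 0 < slope (fun x => g n u * g n x) u z :=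
      hev.filter_mono (nhdsWithin_mono u fun x (hx : x < u) => ne_of_lt hx)
    filter_upwards [h1, hpos.filter_mono nhdsWithin_le_nhds, self_mem_nhdsWithin] with z h2 h3 h4
    have h4' : z - u < 0 := sub_neg.2 h4
    rw [slope_def_field, lt_div_iff_of_neg h4', zero_mul, sub_neg, e z h3, e u hpp] at h2
    exact (lt_of_mul_lt_mul_left h2 habs.le).le

lemma mono_neg (hd : ∀ i x, HasDerivAt (g i) (g (i + 1) x) x) {n : ℕ} {u : ℝ} (h : g n u * g (n + 1) u < 0) :
    (∀ᶠ z in 𝓝[>] u, |g n z| ≤ |g n u|) ∧ (∀ᶠ z in 𝓝[<] u, |g n u| ≤ |g n z|) := by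
  have hne : g n u ≠ 0 := fun h0 => by rw [h0, zero_mul] at h; exact lt_irrefl _ h
  have hφ : HasDerivAt (fun x => g n u * g n x) (g n u * g (n + 1) u) u := (hd n u).const_mul _
  have hsl := hasDerivAt_iff_tendsto_slope.1 hφ
  have hev : ∀ᶠ z in 𝓝[≠] u, slope (fun x => g n u * g n x) u z < 0 := hsl.eventually (gt_mem_nhds h)
  have hc : ContinuousAt (fun x => g n u * g n x) u := hφ.continuousAt
  have hpp : 0 < g n u * g n u := mul_self_pos.2 hne
  have hpos : ∀ᶠ z in 𝓝 u, 0 < g n u * g n z := hc.eventually (lt_mem_nhds hpp)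
  have habs : 0 < |g n u| := abs_pos.2 hne
  have e : ∀ z, 0 < g n u * g n z → g n u * g n z = |g n u| * |g n z| := fun z hz => by
    rw [← abs_mul, abs_of_pos hz]
  constructor
  · have h1 : ∀ᶠ z in 𝓝[>] u, slope (fun x => g n u * g n x) u z < 0 :=
      hev.filter_mono (nhdsWithin_mono u fun x (hx : u < x) => ne_of_gt hx)
    filter_upwards [h1, hpos.filter_mono nhdsWithin_le_nhds, self_mem_nhdsWithin] with z h2 h3 h4
    have h4' : (0 : ℝ) < z - u := sub_pos.2 h4
    rw [slope_def_field, div_lt_iff₀ h4', zero_mul, sub_neg, e z h3, e u hpp] at h2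
    exact (lt_of_mul_lt_mul_left h2 habs.le).le
  · have h1 : ∀ᶠ z in 𝓝[<] u, slope (fun x => g n u * g n x) u z < 0 :=
      hev.filter_mono (nhdsWithin_mono u fun x (hx : x < u) => ne_of_lt hx)
    filter_upwards [h1, hpos.filter_mono nhdsWithin_le_nhds, self_mem_nhdsWithin] with z h2 h3 h4
    have h4' : z - u < 0 := sub_neg.2 h4
    rw [slope_def_field, div_lt_iff_of_neg h4', zero_mul, sub_pos, e z h3, e u hpp] at h2
    exact (lt_of_mul_lt_mul_left h2 habs.le).le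

lemma one_sided {F : ℝ → ℝ} {u : ℝ} (h : IsLocalMin F u) : (∀ᶠ z in 𝓝[>] u, F u ≤ F z) ∧ (∀ᶠ z in 𝓝[<] u, F u ≤ F z) :=
  ⟨Filter.Eventually.filter_mono nhdsWithin_le_nhds h, Filter.Eventually.filter_mono nhdsWithin_le_nhds h⟩

lemma one_sided' {F : ℝ → ℝ} {u : ℝ} (h : IsLocalMax F u) : (∀ᶠ z in 𝓝[>] u, F z ≤ F u) ∧ (∀ᶠ z in 𝓝[<] u, F z ≤ F u) :=
  ⟨Filter.Eventually.filter_mono nhdsWithin_le_nhds h, Filter.Eventually.filter_mono nhdsWithin_le_nhds h⟩

/-- **Rolle's theorem in `(a, b]`, exact form.** -/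
theorem rolle_local (hd : ∀ i x, HasDerivAt (g i) (g (i + 1) x) x)
    (hmu : ∀ n u, (∀ i < mu n u, g (n + i) u = 0) ∧ g (n + mu n u) u ≠ 0)
    (hfin : ∀ n a b, {u : ℝ | a < u ∧ u ≤ b ∧ g n u = 0}.Finite) (n : ℕ) {a b : ℝ} (hab : a < b)
    (ha : g n a * g (n + 1) a ≠ 0) (hb : g n b * g (n + 1) b ≠ 0) :
    (Zc g mu (n + 1) a b : ℤ) - Zc g mu n a b - 2 * Vc g mu n a b =
      (if 0 < g n a * g (n + 1) a then 1 else 0) - (if 0 < g n b * g (n + 1) b then 1 else 0) := by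
  classical
  obtain ⟨A, B, hA, hB, hdf⟩ := defect hd hmu hfin n a b
  rw [hdf]
  set F : ℝ → ℝ := fun x => |g n x| with hF
  have hFc : Continuous F := abs_cont hd n
  have hbA : b ∉ A := fun h => hb (by
    obtain ⟨h1, h2, h3⟩ := (hA b).1 h
    by_cases h0 : g n b = 0
    · rw [h0, zero_mul]
    · rw [ext_deriv hd h0 (Or.inl h3), mul_zero])
  have hbB : b ∉ B := fun h => hb (by
    obtain ⟨h1, h2, h3⟩ := (hB b).1 h
    by_cases h0 : g n b = 0
    · rw [h0, zero_mul]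
    · rw [ext_deriv hd h0 (Or.inr h3), mul_zero])
  have haA : a ∉ A := fun h => lt_irrefl _ ((hA a).1 h).1
  have haB : a ∉ B := fun h => lt_irrefl _ ((hB a).1 h).1
  -- the extended sets
  set A1 : Finset ℝ := if 0 < g n a * g (n + 1) a then {a} else ∅ with hA1
  set B1 : Finset ℝ := if 0 < g n a * g (n + 1) a then ∅ else {a} with hB1
  set A2 : Finset ℝ := if 0 < g n b * g (n + 1) b then ∅ else {b} with hA2
  set B2 : Finset ℝ := if 0 < g n b * g (n + 1) b then {b} else ∅ with hB2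
  -- right-sided and left-sided extremality
  have rA : ∀ x ∈ A1 ∪ A ∪ A2, a ≤ x ∧ x ≤ b ∧ (x ≠ b → ∀ᶠ z in 𝓝[>] x, F x ≤ F z) ∧
      (x ≠ a → ∀ᶠ z in 𝓝[<] x, F x ≤ F z) := by
    intro x hx
    rw [Finset.mem_union, Finset.mem_union] at hx
    rcases hx with (hx | hx) | hx
    · by_cases hs : 0 < g n a * g (n + 1) a
      · rw [hA1, if_pos hs, Finset.mem_singleton] at hx
        subst hx
        exact ⟨le_rfl, hab.le, fun _ => (mono_pos hd hs).1, fun h => absurd rfl h⟩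
      · rw [hA1, if_neg hs] at hx
        exact absurd hx (Finset.notMem_empty x)
    · obtain ⟨h1, h2, h3⟩ := (hA x).1 hx
      exact ⟨h1.le, h2, fun _ => (one_sided h3).1, fun _ => (one_sided h3).2⟩
    · by_cases hs : 0 < g n b * g (n + 1) b
      · rw [hA2, if_pos hs] at hx
        exact absurd hx (Finset.notMem_empty x)
      · rw [hA2, if_neg hs, Finset.mem_singleton] at hx
        subst hx
        have hs' : g n x * g (n + 1) x < 0 := lt_of_le_of_ne (not_lt.1 hs) hb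
        exact ⟨hab.le, le_rfl, fun h => absurd rfl h, fun _ => (mono_neg hd hs').2⟩
  have rB : ∀ x ∈ B1 ∪ B ∪ B2, a ≤ x ∧ x ≤ b ∧ (x ≠ b → ∀ᶠ z in 𝓝[>] x, F z ≤ F x) ∧
      (x ≠ a → ∀ᶠ z in 𝓝[<] x, F z ≤ F x) := by
    intro x hx
    rw [Finset.mem_union, Finset.mem_union] at hx
    rcases hx with (hx | hx) | hx
    · by_cases hs : 0 < g n a * g (n + 1) a
      · rw [hB1, if_pos hs] at hx
        exact absurd hx (Finset.notMem_empty x)
      · rw [hB1, if_neg hs, Finset.mem_singleton] at hx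
        subst hx
        have hs' : g n x * g (n + 1) x < 0 := lt_of_le_of_ne (not_lt.1 hs) ha
        exact ⟨le_rfl, hab.le, fun _ => (mono_neg hd hs').1, fun h => absurd rfl h⟩
    · obtain ⟨h1, h2, h3⟩ := (hB x).1 hx
      exact ⟨h1.le, h2, fun _ => (one_sided' h3).1, fun _ => (one_sided' h3).2⟩
    · by_cases hs : 0 < g n b * g (n + 1) b
      · rw [hB2, if_pos hs, Finset.mem_singleton] at hx
        subst hx
        exact ⟨hab.le, le_rfl, fun h => absurd rfl h, fun _ => (mono_pos hd hs).2⟩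
      · rw [hB2, if_neg hs] at hx
        exact absurd hx (Finset.notMem_empty x)
  have i1 : (A1 ∪ A ∪ A2).card ≤ B.card + 1 := by
    refine Pool.Agent.Zk2.XP.interlace _ _ B rfl fun x hx y hy hxy => ?_
    obtain ⟨p1, p2, p3, -⟩ := rA x hx
    obtain ⟨q1, q2, -, q4⟩ := rA y hy
    obtain ⟨c, c1, c2, c3⟩ := max_between1 hFc hxy (p3 (ne_of_lt (hxy.trans_le q2)))
      (q4 (ne_of_gt (p1.trans_lt hxy)))
    exact ⟨c, (hB c).2 ⟨p1.trans_lt c1, c2.le.trans q2, c3⟩, c1, c2⟩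
  have i2 : (B1 ∪ B ∪ B2).card ≤ A.card + 1 := by
    refine Pool.Agent.Zk2.XP.interlace _ _ A rfl fun x hx y hy hxy => ?_
    obtain ⟨p1, p2, p3, -⟩ := rB x hx
    obtain ⟨q1, q2, -, q4⟩ := rB y hy
    obtain ⟨c, c1, c2, c3⟩ := min_between1 hFc hxy (p3 (ne_of_lt (hxy.trans_le q2)))
      (q4 (ne_of_gt (p1.trans_lt hxy)))
    exact ⟨c, (hA c).2 ⟨p1.trans_lt c1, c2.le.trans q2, c3⟩, c1, c2⟩
  have hne : a ≠ b := ne_of_lt hab
  by_cases sa : 0 < g n a * g (n + 1) a <;> by_cases sb : 0 < g n b * g (n + 1) b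
  · simp only [hA1, hB1, hA2, hB2, if_pos sa, if_pos sb, Finset.union_empty, Finset.empty_union] at i1 i2 ⊢
    rw [← Finset.insert_eq, Finset.card_insert_of_notMem haA] at i1
    rw [Finset.union_comm, ← Finset.insert_eq, Finset.card_insert_of_notMem hbB] at i2
    omega
  · simp only [hA1, hB1, hA2, hB2, if_pos sa, if_neg sb, Finset.union_empty, Finset.empty_union] at i1 i2 ⊢
    rw [Finset.union_comm, ← Finset.insert_eq, ← Finset.insert_eq, Finset.card_insert_of_notMem,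
      Finset.card_insert_of_notMem haA] at i1
    · omega
    · rw [Finset.mem_insert, not_or]
      exact ⟨hne.symm, hbA⟩
  · simp only [hA1, hB1, hA2, hB2, if_neg sa, if_pos sb, Finset.union_empty, Finset.empty_union] at i1 i2 ⊢
    rw [Finset.union_comm, ← Finset.insert_eq, ← Finset.insert_eq, Finset.card_insert_of_notMem,
      Finset.card_insert_of_notMem haB] at i2
    · omega
    · rw [Finset.mem_insert, not_or]
      exact ⟨hne.symm, hbB⟩
  · simp only [hA1, hB1, hA2, hB2, if_neg sa, if_neg sb, Finset.union_empty, Finset.empty_union] at i1 i2 ⊢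
    rw [← Finset.insert_eq, Finset.card_insert_of_notMem haB] at i2
    rw [Finset.union_comm, ← Finset.insert_eq, Finset.card_insert_of_notMem hbA] at i1
    omega

end

end Pool.Agent.Zk3.G
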