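import Pool.Agent.Zk4.G.U
import Pool.Agent.Zk3.G.Rolle

set_option autoImplicit false

/-!
# Rolle between two heights and the telescoping sum for the functions of the class `FE`
-/

namespace Pool.Agent.Zk3.G

open Complex Filter Topology Set
open Pool.Agent.Zk4.G

noncomputable section

section Basic

variable {F : ℂ → ℂ} [hF : FE F]

omit hF in
lemma iter_diff (hd : Differentiable ℂ F) (n : ℕ) : Differentiable ℂ (iteratedDeriv n F) :=
  hd.contDiff.differentiable_iteratedDeriv' n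

lemma iterD (n : ℕ) : Differentiable ℂ (iteratedDeriv n F) := iter_diff hF.diff n

lemma hasD (n : ℕ) (z : ℂ) : HasDerivAt (iteratedDeriv n F) (iteratedDeriv (n + 1) F z) z := by
  rw [iteratedDeriv_succ]
  exact (iterD n z).hasDerivAt

/-- the symmetry of the derivatives -/
lemma iter_symm (n : ℕ) : ∀ z : ℂ, iteratedDeriv n F (-((starRingEnd ℂ) z)) =
    (-1) ^ n * (starRingEnd ℂ) (iteratedDeriv n F z) := by
  induction n with
  | zero => intro z; simpa using hF.symm z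
  | succ n ih =>
    intro z
    have h1 : (fun z : ℂ => iteratedDeriv n F z) = fun z => (-1) ^ n * (starRingEnd ℂ)
        (iteratedDeriv n F (-((starRingEnd ℂ) z))) := by
      funext w
      have h2 := ih (-((starRingEnd ℂ) w))
      have h3 : -((starRingEnd ℂ) (-((starRingEnd ℂ) w))) = w := by simp
      rw [h3] at h2
      exact h2
    -- differentiate `w ↦ conj (f (-conj w))`
    have hd := hasD (F := F) n z
    have h4 : HasDerivAt (fun w : ℂ => (starRingEnd ℂ) (iteratedDeriv n F (-((starRingEnd ℂ) w))))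
        (-(starRingEnd ℂ) (iteratedDeriv (n + 1) F z)) (-((starRingEnd ℂ) z)) := by
      have h5 : HasDerivAt (fun w : ℂ => iteratedDeriv n F (-w)) (-(iteratedDeriv (n + 1) F z)) (-z) := by
        have h6 : HasDerivAt (iteratedDeriv n F) (iteratedDeriv (n + 1) F z) (-(-z)) := by rw [neg_neg]; exact hd
        have h7 := h6.comp (-z) (hasDerivAt_neg (-z))
        rw [mul_neg_one] at h7
        exact h7
      have h8 := h5.conj_conj
      have e1 : (starRingEnd ℂ) (-z) = -((starRingEnd ℂ) z) := map_neg _ _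
      rw [e1] at h8
      have e2 : (starRingEnd ℂ) (-(iteratedDeriv (n + 1) F z)) = -(starRingEnd ℂ) (iteratedDeriv (n + 1) F z) :=
        map_neg _ _
      rw [e2] at h8
      exact h8
    have h9 : HasDerivAt (fun z : ℂ => iteratedDeriv n F z)
        ((-1) ^ n * (-(starRingEnd ℂ) (iteratedDeriv (n + 1) F z))) (-((starRingEnd ℂ) z)) := by
      rw [h1]
      exact h4.const_mul _
    have h10 := (hasD (F := F) n (-((starRingEnd ℂ) z))).unique h9
    rw [h10, pow_succ]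
    ring

lemma ne_zero_somewhere (n : ℕ) : ∃ z : ℂ, iteratedDeriv n F z ≠ 0 := by
  by_contra hcon
  push Not at hcon
  obtain ⟨z, hz⟩ := hF.ne n 0
  apply hz
  rw [zero_mul]
  have h1 : iteratedDeriv n F = fun _ => 0 := funext hcon
  rw [iteratedDeriv_succ, h1]
  simp

lemma ne_top (n : ℕ) (z : ℂ) : analyticOrderAt (iteratedDeriv n F) z ≠ ⊤ := by
  intro htop
  rw [analyticOrderAt_eq_top] at htop
  have hA : AnalyticOnNhd ℂ (iteratedDeriv n F) univ := fun w _ => (iterD n).analyticAt w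
  obtain ⟨w, hw⟩ := ne_zero_somewhere (F := F) n
  exact hw (hA.eqOn_zero_of_preconnected_of_eventuallyEq_zero isPreconnected_univ (mem_univ z) htop (mem_univ w))

lemma gn_real (n : ℕ) (u : ℝ) :
    (starRingEnd ℂ) (I ^ n * iteratedDeriv n F (I * u)) = I ^ n * iteratedDeriv n F (I * u) := by
  have h1 := iter_symm (F := F) n (I * u)
  have e : -((starRingEnd ℂ) (I * (u : ℂ))) = I * u := by simp
  rw [e] at h1
  have h2 : (starRingEnd ℂ) (iteratedDeriv n F (I * u)) = (-1) ^ n * iteratedDeriv n F (I * u) := by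
    have h3 : ((-1 : ℂ)) ^ n * (-1) ^ n = 1 := by rw [← mul_pow]; norm_num
    calc (starRingEnd ℂ) (iteratedDeriv n F (I * u)) =
        ((-1 : ℂ)) ^ n * (-1) ^ n * (starRingEnd ℂ) (iteratedDeriv n F (I * u)) := by rw [h3, one_mul]
      _ = (-1) ^ n * iteratedDeriv n F (I * u) := by rw [mul_assoc, ← h1]
  rw [map_mul, map_pow, conj_I, h2, ← mul_assoc, ← mul_pow]
  congr 2
  ring

lemma gn_eq (n : ℕ) (u : ℝ) : ((gn F n u : ℝ) : ℂ) = I ^ n * iteratedDeriv n F (I * u) :=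
  Complex.conj_eq_iff_re.1 (gn_real n u)

lemma gn_zero (n : ℕ) (u : ℝ) : gn F n u = 0 ↔ iteratedDeriv n F (I * u) = 0 := by
  have h1 := gn_eq (F := F) n u
  constructor
  · intro h
    rw [h, ofReal_zero] at h1
    exact (mul_eq_zero.1 h1.symm).resolve_left (pow_ne_zero _ I_ne_zero)
  · intro h
    rw [h, mul_zero] at h1
    exact_mod_cast h1

lemma gn_deriv (n : ℕ) (u : ℝ) : HasDerivAt (gn F n) (gn F (n + 1) u) u := by
  have h1 := hasD (F := F) n (I * (u : ℂ))
  have h2 : HasDerivAt (fun w : ℂ => I * w) I (u : ℂ) := by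
    simpa using (hasDerivAt_id (u : ℂ)).const_mul I
  have h3 : HasDerivAt (fun w : ℂ => I ^ n * iteratedDeriv n F (I * w))
      (I ^ n * (iteratedDeriv (n + 1) F (I * u) * I)) (u : ℂ) :=
    (h1.comp (u : ℂ) h2).const_mul _
  have h4 := h3.real_of_complex
  refine h4.congr_deriv ?_
  unfold gn
  congr 1
  rw [pow_succ]
  ring

omit hF in
lemma iter_add (k n : ℕ) : iteratedDeriv k (iteratedDeriv n F) = iteratedDeriv (n + k) F := by
  rw [iteratedDeriv_eq_iterate, iteratedDeriv_eq_iterate, iteratedDeriv_eq_iterate, add_comm,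
    Function.iterate_add_apply]

lemma mu_iff (n k : ℕ) (u : ℝ) :
    mu F n (I * u) = k ↔ (∀ i < k, gn F (n + i) u = 0) ∧ gn F (n + k) u ≠ 0 := by
  have hA : AnalyticAt ℂ (iteratedDeriv n F) (I * u) := (iterD n).analyticAt _
  have h1 : mu F n (I * u) = k ↔ analyticOrderAt (iteratedDeriv n F) (I * u) = k := by
    unfold mu analyticOrderNatAt
    constructor
    · intro h
      rw [← h]
      exact (ENat.natCast_toNat (ne_top n _)).symm
    · intro h
      rw [h]
      rfl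
  rw [h1, analyticOrderAt_eq_nat_iff_iteratedDeriv_eq_zero hA]
  simp only [iter_add, gn_zero, ne_eq]

lemma hmu (n : ℕ) (u : ℝ) : (∀ i < mu F n (I * u), gn F (n + i) u = 0) ∧ gn F (n + mu F n (I * u)) u ≠ 0 :=
  (mu_iff n _ u).1 rfl

/-- finitely many zeros in compact sets -/
lemma cpt_finite (n : ℕ) {K : Set ℂ} (hK : IsCompact K) : {s : ℂ | s ∈ K ∧ iteratedDeriv n F s = 0}.Finite := by
  by_contra hinf
  have hinf : {s : ℂ | s ∈ K ∧ iteratedDeriv n F s = 0}.Infinite := hinf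
  obtain ⟨x, hx, hacc⟩ := hinf.exists_accPt_of_subset_isCompact hK (fun s hs => hs.1)
  have hfreq : ∃ᶠ z in 𝓝[≠] x, iteratedDeriv n F z = 0 := by
    rw [accPt_iff_frequently_nhdsNE] at hacc
    exact hacc.mono fun z hz => hz.2
  have hz := AnalyticOnNhd.eqOn_zero_of_preconnected_of_frequently_eq_zero
    (f := iteratedDeriv n F) (U := univ) (fun s _ => (iterD n).analyticAt s)
    isPreconnected_univ (mem_univ x) hfreq
  obtain ⟨w, hw⟩ := ne_zero_somewhere (F := F) n
  exact hw (hz (mem_univ w))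

lemma line_finite (n : ℕ) (a b : ℝ) : {u : ℝ | a < u ∧ u ≤ b ∧ gn F n u = 0}.Finite := by
  have hK : IsCompact ((fun u : ℝ => (I * u : ℂ)) '' Icc a b) :=
    isCompact_Icc.image (by fun_prop)
  have h1 := cpt_finite (F := F) n hK
  refine Set.Finite.of_finite_image (f := fun u : ℝ => (I * u : ℂ)) (h1.subset ?_) ?_
  · rintro _ ⟨u, ⟨h2, h3, h4⟩, rfl⟩
    exact ⟨⟨u, ⟨h2.le, h3⟩, rfl⟩, (gn_zero n u).1 h4⟩
  · intro u _ v _ h
    simp only at h
    have := mul_left_cancel₀ I_ne_zero h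
    exact_mod_cast this

lemma ZT_eq (n : ℕ) (a b : ℝ) : ZT F n a b = Zc (gn F) (fun n u => mu F n (I * u)) n a b := by
  unfold ZT Zc
  have h1 : {s : ℂ | s ∈ zs F n a b ∧ s.re = 0} =
      (fun u : ℝ => (I * u : ℂ)) '' {u : ℝ | a < u ∧ u ≤ b ∧ gn F n u = 0} := by
    ext s
    constructor
    · rintro ⟨⟨h1, h2, h3⟩, h4⟩
      have hs : I * (s.im : ℂ) = s := by
        apply Complex.ext
        · simp [h4]
        · simp
      refine ⟨s.im, ⟨h2, h3, ?_⟩, hs⟩
      rw [gn_zero, hs]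
      exact h1
    · rintro ⟨u, ⟨h1, h2, h3⟩, rfl⟩
      refine ⟨⟨(gn_zero n u).1 h3, ?_, ?_⟩, ?_⟩
      · simpa using h1
      · simpa using h2
      · simp
  rw [h1, finsum_mem_image]
  intro u _ v _ h
  simp only at h
  have := mul_left_cancel₀ I_ne_zero h
  exact_mod_cast this

omit hF in
lemma VT_eq (n : ℕ) (a b : ℝ) : VT F n a b = Vc (gn F) (fun n u => mu F n (I * u)) n a b := rfl

/-- **Part A5.** -/
theorem t_A5 : S_A5 F := by
  intro n a b
  obtain ⟨A, B, hA, hB, hd⟩ := defect (g := gn F) (mu := fun n u => mu F n (I * u)) (fun i x => gn_deriv i x) hmu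
    line_finite n a b
  rw [ZT_eq, ZT_eq, VT_eq, hd]
  have hFc : Continuous (fun x : ℝ => |gn F n x|) := abs_cont (fun i x => gn_deriv i x) n
  have i1 : A.card ≤ B.card + 1 := by
    refine Pool.Agent.Zk2.XP.interlace _ A B rfl fun x hx y hy hxy => ?_
    obtain ⟨p1, p2, p3⟩ := (hA x).1 hx
    obtain ⟨q1, q2, q3⟩ := (hA y).1 hy
    obtain ⟨c, c1, c2, c3⟩ := Pool.Agent.Zk2.FP.max_between hFc hxy p3 q3
    exact ⟨c, (hB c).2 ⟨p1.trans c1, c2.le.trans q2, c3⟩, c1, c2⟩
  have i2 : B.card ≤ A.card + 1 := by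
    refine Pool.Agent.Zk2.XP.interlace _ B A rfl fun x hx y hy hxy => ?_
    obtain ⟨p1, p2, p3⟩ := (hB x).1 hx
    obtain ⟨q1, q2, q3⟩ := (hB y).1 hy
    obtain ⟨c, c1, c2, c3⟩ := Pool.Agent.Zk2.FP.min_between' hFc hxy p3 q3
    exact ⟨c, (hA c).2 ⟨p1.trans c1, c2.le.trans q2, c3⟩, c1, c2⟩
  rw [abs_le]
  constructor <;> omega

/-- Rolle in `(a, b]`, exact form -/
theorem rolle_FE (n : ℕ) {a b : ℝ} (hab : a < b) (ha : gn F n a * gn F (n + 1) a ≠ 0)
    (hb : gn F n b * gn F (n + 1) b ≠ 0) :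
    (ZT F (n + 1) a b : ℤ) - ZT F n a b - 2 * VT F n a b =
      (if 0 < gn F n a * gn F (n + 1) a then 1 else 0) - (if 0 < gn F n b * gn F (n + 1) b then 1 else 0) := by
  rw [ZT_eq, ZT_eq, VT_eq]
  exact rolle_local (fun i x => gn_deriv i x) hmu line_finite n hab ha hb

/-- the strip -/
lemma strip (h1 : S_A1 F) (n : ℕ) {s : ℂ} (hs : iteratedDeriv n F s = 0) : |s.re| ≤ 1 / 2 := by
  rw [abs_le]
  constructor
  · by_contra hcon
    push Not at hcon
    have h2 := iter_symm (F := F) n s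
    rw [hs, map_zero, mul_zero] at h2
    refine (h1.1 n (-((starRingEnd ℂ) s)) ?_).1 h2
    rw [neg_re, conj_re]
    linarith
  · by_contra hcon
    push Not at hcon
    exact (h1.1 n s hcon).1 hs

lemma zs_finite (h1 : S_A1 F) (n : ℕ) (a b : ℝ) : (zs F n a b).Finite := by
  have hK : IsCompact (Icc (-1 : ℝ) 1 ×ℂ Icc a b) := isCompact_Icc.reProdIm isCompact_Icc
  refine (cpt_finite (F := F) n hK).subset ?_
  rintro s ⟨h2, h3, h4⟩
  have h5 := abs_le.1 (strip h1 n h2)
  exact ⟨⟨⟨by linarith, by linarith⟩, ⟨h3.le, h4⟩⟩, h2⟩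

lemma MT_add (h1 : S_A1 F) (n : ℕ) (a b : ℝ) : MT F n a b + ZT F n a b = NT F n a b := by
  have hf := zs_finite h1 n a b
  have hu : zs F n a b = {s : ℂ | s ∈ zs F n a b ∧ s.re ≠ 0} ∪ {s : ℂ | s ∈ zs F n a b ∧ s.re = 0} := by
    ext s
    constructor
    · intro h
      by_cases h0 : s.re = 0
      · exact Or.inr ⟨h, h0⟩
      · exact Or.inl ⟨h, h0⟩
    · rintro (h | h)
      · exact h.1
      · exact h.1
  have hd : Disjoint {s : ℂ | s ∈ zs F n a b ∧ s.re ≠ 0} {s : ℂ | s ∈ zs F n a b ∧ s.re = 0} := by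
    rw [Set.disjoint_left]
    rintro s ⟨_, h2⟩ ⟨_, h3⟩
    exact h2 h3
  unfold MT ZT NT
  conv_rhs => rw [hu]
  rw [finsum_mem_union hd (hf.subset fun s h => h.1) (hf.subset fun s h => h.1)]

/-- the telescoping sum of Rolle's theorem -/
lemma rolle_sum (n k : ℕ) (a b : ℝ) :
    |(ZT F (n + k) a b : ℝ) - ZT F n a b - 2 * ∑ j ∈ Finset.range k, (VT F (n + j) a b : ℝ)| ≤ k := by
  induction k with
  | zero => simp
  | succ k ih =>
    have h5 : |((ZT F (n + k + 1) a b : ℤ) - ZT F (n + k) a b - 2 * VT F (n + k) a b)| ≤ 1 := t_A5 (n + k) a b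
    have h6 : |((ZT F (n + k + 1) a b : ℝ) - ZT F (n + k) a b - 2 * VT F (n + k) a b)| ≤ 1 := by exact_mod_cast h5
    rw [Finset.sum_range_succ, show n + (k + 1) = n + k + 1 by ring]
    rw [abs_le] at ih h6 ⊢
    push_cast
    constructor <;> linarith [ih.1, ih.2, h6.1, h6.2]

/-- **Part A6.** -/
theorem t_A6 {C : ℝ} (h1 : S_A1 F) (h4 : S_A4 F C) : S_A6 F (C + 1) := by
  intro a b n k hab
  have h2 := h4 a b n (n + k) hab (Nat.le_add_right n k)
  have h3 := rolle_sum (F := F) n k a b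
  have m0 : (MT F n a b : ℝ) = NT F n a b - ZT F n a b := by
    have := MT_add h1 n a b
    rw [← this]; push_cast; ring
  have m1 : (MT F (n + k) a b : ℝ) = NT F (n + k) a b - ZT F (n + k) a b := by
    have := MT_add h1 (n + k) a b
    rw [← this]; push_cast; ring
  rw [m0, m1]
  have hq : 0 ≤ ‖qq F 0 (⟨1, a⟩ : ℂ)‖ := norm_nonneg _
  have hq' : 0 ≤ ‖qq F 0 (⟨1, b⟩ : ℂ)‖ := norm_nonneg _
  have hn : (0 : ℝ) ≤ n := Nat.cast_nonneg _
  have hk : (0 : ℝ) ≤ k := Nat.cast_nonneg _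
  push_cast at h2 ⊢
  rw [abs_le] at h2 h3 ⊢
  constructor <;> nlinarith [h2.1, h2.2, h3.1, h3.2]

end Basic

end

end Pool.Agent.Zk3.G
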