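import Pool.Agent.Zk3.G.A56
import Pool.Agent.Zk6.G.A7
import Pool.Agent.Zk6.G.Grow
import Pool.Agent.Zk69.G.XF

set_option autoImplicit false

/-!
# The exact formula between two free heights for the functions of the class `FE`
-/

namespace Pool.Agent.Zk3.G

open Complex Filter Topology Set MeasureTheory
open Pool.Agent.Zk4.G

noncomputable section

section Ex2

variable (F : ℂ → ℂ) [hF : FE F]

/-- no zero of `f_n` off the line has the height `T` in the diameter of its Jensen circle -/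
def JF (n : ℕ) (T : ℝ) : Prop := ∀ s : ℂ, iteratedDeriv n F s = 0 → s.re ≠ 0 → |s.re| < |s.im - T|

variable {F}

lemma pos_height {n : ℕ} {T : ℝ} (h : JF F n T) (x : ℝ) (hx : 0 < x) : 0 < (qq F n (⟨x, T⟩ : ℂ)).re :=
  Pool.Agent.Zk69.G.XF.t_XF F n T h x hx

/-- no zeros of `f_m` in a small strip above the height `T` -/
lemma no_above (m : ℕ) (T : ℝ) : ∀ᶠ T' in 𝓝[>] T, ∀ s : ℂ, iteratedDeriv m F s = 0 → ¬ (T < s.im ∧ s.im ≤ T') := by
  have hfin := zs_finite (Pool.Agent.Zk6.G.t_A1 F) m T (T + 1)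
  have hS : (Complex.im '' zs F m T (T + 1)).Finite := hfin.image _
  have hT : T ∉ Complex.im '' zs F m T (T + 1) := by
    rintro ⟨s, ⟨-, h2, -⟩, h4⟩
    linarith
  have hnh : (Complex.im '' zs F m T (T + 1))ᶜ ∈ 𝓝 T := hS.isClosed.isOpen_compl.mem_nhds hT
  obtain ⟨ε, hε, hball⟩ := Metric.mem_nhds_iff.1 hnh
  have hmem : Ioo T (T + min ε 1) ∈ 𝓝[>] T := Ioo_mem_nhdsGT (by have := lt_min hε one_pos; linarith)
  filter_upwards [hmem] with T' hT' s hs hcon
  have h1 : s.im < T + ε := hcon.2.trans_lt (hT'.2.trans_le (by linarith [min_le_left ε 1]))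
  have h2 : s.im ≤ T + 1 := hcon.2.trans (hT'.2.le.trans (by linarith [min_le_right ε 1]))
  have h3 : s.im ∈ (Complex.im '' zs F m T (T + 1))ᶜ := by
    apply hball
    rw [Metric.mem_ball, Real.dist_eq, abs_of_pos (by linarith [hcon.1])]
    linarith
  exact h3 ⟨s, ⟨hs, hcon.1, h2⟩, rfl⟩

/-- free heights are an open set -/
lemma JF_above {n : ℕ} {T : ℝ} (h : JF F n T) : ∀ᶠ T' in 𝓝[>] T, JF F n T' := by
  have hfin := zs_finite (Pool.Agent.Zk6.G.t_A1 F) n (T - 3) (T + 3)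
  have h1 : ∀ᶠ T' in 𝓝 T, ∀ s ∈ zs F n (T - 3) (T + 3), s.re ≠ 0 → |s.re| < |s.im - T'| := by
    rw [Filter.eventually_all_finite hfin]
    intro s hs
    by_cases hre : s.re = 0
    · exact Eventually.of_forall fun _ h => absurd hre h
    · have hc : ContinuousAt (fun T' : ℝ => |s.im - T'|) T := by fun_prop
      exact (hc.eventually (lt_mem_nhds (h s hs.1 hre))).mono fun _ h _ => h
  have h2 : ∀ᶠ T' in 𝓝 T, |T' - T| < 1 := by
    have : ContinuousAt (fun T' : ℝ => |T' - T|) T := by fun_prop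
    refine this.eventually (gt_mem_nhds ?_)
    show |T - T| < 1
    rw [sub_self, abs_zero]
    exact one_pos
  filter_upwards [nhdsWithin_le_nhds h1, nhdsWithin_le_nhds h2] with T' g1 g2 s hs hre
  by_cases hw : T - 3 < s.im ∧ s.im ≤ T + 3
  · exact g1 s ⟨hs, hw.1, hw.2⟩ hre
  · have h3 : |s.re| ≤ 1 / 2 := strip (Pool.Agent.Zk6.G.t_A1 F) n hs
    have h4 : 3 ≤ |s.im - T| := by
      rw [not_and_or, not_lt, not_le] at hw
      rw [le_abs]
      rcases hw with h | h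
      · right; linarith
      · left; linarith
    have h5 : |s.im - T| ≤ |s.im - T'| + |T' - T| := abs_sub_le _ _ _
    linarith

lemma MT_congr {m : ℕ} {a b a' b' : ℝ} (haa : a < a') (hab : a' < b) (hbb : b < b')
    (h1 : ∀ s : ℂ, iteratedDeriv m F s = 0 → ¬ (a < s.im ∧ s.im ≤ a'))
    (h2 : ∀ s : ℂ, iteratedDeriv m F s = 0 → ¬ (b < s.im ∧ s.im ≤ b')) : MT F m a b = MT F m a' b' := by
  unfold MT
  have e : {s : ℂ | s ∈ zs F m a b ∧ s.re ≠ 0} = {s : ℂ | s ∈ zs F m a' b' ∧ s.re ≠ 0} := by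
    ext s
    constructor
    · rintro ⟨⟨h3, h4, h5⟩, h6⟩
      refine ⟨⟨h3, ?_, h5.trans hbb.le⟩, h6⟩
      by_contra hcon
      exact h1 s h3 ⟨h4, not_lt.1 hcon⟩
    · rintro ⟨⟨h3, h4, h5⟩, h6⟩
      refine ⟨⟨h3, haa.trans h4, ?_⟩, h6⟩
      by_contra hcon
      exact h2 s h3 ⟨not_le.1 hcon, h5⟩
  rw [e]

lemma VT_congr {n : ℕ} {a b a' b' : ℝ} (haa : a < a') (hab : a' < b) (hbb : b < b')
    (h1 : ∀ s : ℂ, iteratedDeriv (n + 1) F s = 0 → ¬ (a < s.im ∧ s.im ≤ a'))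
    (h2 : ∀ s : ℂ, iteratedDeriv (n + 1) F s = 0 → ¬ (b < s.im ∧ s.im ≤ b')) : VT F n a b = VT F n a' b' := by
  have him : ∀ u : ℝ, (I * (u : ℂ)).im = u := fun u => by simp
  unfold VT
  have e : {u : ℝ | a < u ∧ u ≤ b ∧ gn F n u ≠ 0 ∧ gn F (n + 1) u = 0} =
      {u : ℝ | a' < u ∧ u ≤ b' ∧ gn F n u ≠ 0 ∧ gn F (n + 1) u = 0} := by
    ext u
    constructor
    · rintro ⟨h3, h4, h5, h6⟩
      refine ⟨?_, h4.trans hbb.le, h5, h6⟩
      by_contra hcon
      exact h1 (I * u) ((gn_zero _ _).1 h6) (by rw [him]; exact ⟨h3, not_lt.1 hcon⟩)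
    · rintro ⟨h3, h4, h5, h6⟩
      refine ⟨haa.trans h3, ?_, h5, h6⟩
      by_contra hcon
      exact h2 (I * u) ((gn_zero _ _).1 h6) (by rw [him]; exact ⟨not_le.1 hcon, h4⟩)
  rw [e]

/-- the exact step between heights which are not zeros on the line -/
lemma step_aux2 {n : ℕ} {a b : ℝ} (hab : a < b) (ha : JF F n a) (hb : JF F n b)
    (ga : gn F n a * gn F (n + 1) a ≠ 0) (gb : gn F n b * gn F (n + 1) b ≠ 0) :
    MT F n a b = MT F (n + 1) a b + 2 * VT F n a b := by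
  have hA1 : S_A1 F := Pool.Agent.Zk6.G.t_A1 F
  have r := rolle_FE (F := F) n hab ga gb
  have w := Pool.Agent.Zk69.G.XF.wind_gn hF hA1 hab (fun x hx _ => pos_height ha x hx) ga
    (fun x hx _ => pos_height hb x hx) gb
  have m0 := MT_add hA1 n a b
  have m1 := MT_add hA1 (n + 1) a b
  omega

/-- **The exact step.** -/
theorem step_free {n : ℕ} {a b : ℝ} (hab : a < b) (ha : JF F n a) (hb : JF F n b) :
    MT F n a b = MT F (n + 1) a b + 2 * VT F n a b := by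
  have him : ∀ u : ℝ, (I * (u : ℂ)).im = u := fun u => by simp
  have hlt : ∀ᶠ a' in 𝓝[>] a, a' < b := nhdsWithin_le_nhds (gt_mem_nhds hab)
  obtain ⟨a', ⟨⟨⟨p1, p2⟩, p3⟩, p4⟩, p5⟩ := ((((no_above (F := F) n a).and (no_above (F := F) (n + 1) a)).and
    (JF_above ha)).and hlt).and self_mem_nhdsWithin |>.exists
  obtain ⟨b', ⟨⟨q1, q2⟩, q3⟩, q5⟩ := (((no_above (F := F) n b).and (no_above (F := F) (n + 1) b)).and
    (JF_above hb)).and self_mem_nhdsWithin |>.exists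
  have p5' : a < a' := p5
  have q5' : b < b' := q5
  have ga : gn F n a' * gn F (n + 1) a' ≠ 0 := by
    refine mul_ne_zero (fun h => ?_) (fun h => ?_)
    · exact p1 (I * a') ((gn_zero _ _).1 h) (by rw [him]; exact ⟨p5', le_rfl⟩)
    · exact p2 (I * a') ((gn_zero _ _).1 h) (by rw [him]; exact ⟨p5', le_rfl⟩)
  have gb : gn F n b' * gn F (n + 1) b' ≠ 0 := by
    refine mul_ne_zero (fun h => ?_) (fun h => ?_)
    · exact q1 (I * b') ((gn_zero _ _).1 h) (by rw [him]; exact ⟨q5', le_rfl⟩)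
    · exact q2 (I * b') ((gn_zero _ _).1 h) (by rw [him]; exact ⟨q5', le_rfl⟩)
  rw [MT_congr p5' p4 q5' p1 q1, MT_congr p5' p4 q5' p2 q2, VT_congr p5' p4 q5' p2 q2]
  exact step_aux2 (p4.trans q5') p3 q3 ga gb

/-- the drift: heights free for `f_n` in the wide sense are free for `f_(n+j)` -/
lemma JF_drift {n k : ℕ} {T : ℝ} (h : ∀ s : ℂ, iteratedDeriv n F s = 0 → s.re ≠ 0 → k * s.re ^ 2 < (s.im - T) ^ 2)
    {j : ℕ} (hj : j < k) : JF F (n + j) T := by
  intro w hw hre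
  by_contra hcon
  push Not at hcon
  obtain ⟨s, h3, h4, h5, h6⟩ := Pool.Agent.Zk6.G.drift2 hF n j w hw hre
  have h0 := h s h3 h4
  have hz4 : (w.im - T) ^ 2 ≤ w.re ^ 2 := by
    rw [← sq_abs (w.im - T), ← sq_abs w.re]
    gcongr
  have hjk : ((j : ℝ) + 1) ≤ k := by exact_mod_cast hj
  have hs2 : 0 ≤ s.re ^ 2 := sq_nonneg _
  have key : (s.im - T) ^ 2 ≤ (j + 1) * s.re ^ 2 := by
    set a := w.im - T with ha
    set b := w.im - s.im with hb
    set c := s.re ^ 2 - w.re ^ 2 with hc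
    have hc0 : 0 ≤ c := by rw [hc]; linarith
    have hk : (0 : ℝ) ≤ j := Nat.cast_nonneg _
    have e : s.im - T = a - b := by rw [ha, hb]; ring
    have h7 : -(2 * (a * b)) ≤ j * a ^ 2 + c := by
      have h8 : (-(2 * (a * b))) ^ 2 ≤ (j * a ^ 2 + c) ^ 2 := by
        have h9 : a ^ 2 * b ^ 2 ≤ a ^ 2 * (j * c) := mul_le_mul_of_nonneg_left h6 (sq_nonneg a)
        nlinarith [sq_nonneg (j * a ^ 2 - c)]
      exact (abs_le_of_sq_le_sq' h8 (by positivity)).2
    rw [e]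
    have h8 : a ^ 2 + c ≤ s.re ^ 2 := by rw [hc]; linarith
    have h9 : ((j : ℝ) + 1) * (a ^ 2 + c) ≤ (j + 1) * s.re ^ 2 :=
      mul_le_mul_of_nonneg_left h8 (by positivity)
    nlinarith
  have h10 : ((j : ℝ) + 1) * s.re ^ 2 ≤ k * s.re ^ 2 := mul_le_mul_of_nonneg_right hjk hs2
  linarith

/-- **The exact formula for `k` steps.** -/
theorem exact_sum (n k : ℕ) {a b : ℝ} (hab : a < b)
    (ha : ∀ s : ℂ, iteratedDeriv n F s = 0 → s.re ≠ 0 → k * s.re ^ 2 < (s.im - a) ^ 2)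
    (hb : ∀ s : ℂ, iteratedDeriv n F s = 0 → s.re ≠ 0 → k * s.re ^ 2 < (s.im - b) ^ 2) :
    MT F n a b = MT F (n + k) a b + 2 * ∑ j ∈ Finset.range k, VT F (n + j) a b := by
  have key : ∀ i : ℕ, i ≤ k → MT F n a b = MT F (n + i) a b + 2 * ∑ j ∈ Finset.range i, VT F (n + j) a b := by
    intro i
    induction i with
    | zero => intro _; simp
    | succ i ih =>
      intro hi
      have h1 := ih (by omega)
      have h2 : MT F (n + i) a b = MT F (n + i + 1) a b + 2 * VT F (n + i) a b :=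
        step_free hab (JF_drift ha hi) (JF_drift hb hi)
      rw [Finset.sum_range_succ, show n + (i + 1) = n + i + 1 by ring]
      omega
  exact key k le_rfl

end Ex2

end

end Pool.Agent.Zk3.G
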